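import Pool.Agent.R636.FFam

/-!
# Meet-irreducible subgroups that contain at most half of the subgroups
-/

set_option autoImplicit false

namespace Pool.Agent.U133.FD

section crit

variable {G : Type*} [Group G]

/-- Dedekind's modular law for a normal subgroup -/
theorem dedekind (N : Subgroup G) [N.Normal] {K H : Subgroup G} (h : K ≤ H) :
    (K ⊔ N) ⊓ H = K ⊔ (N ⊓ H) := by
  apply le_antisymm
  · rintro x ⟨hx, hxH⟩
    obtain ⟨k, hk, n, hn, rfl⟩ := Subgroup.mem_sup_of_normal_right.1 hx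
    have h1 : n ∈ H := by
      have := H.mul_mem (H.inv_mem (h hk)) hxH
      simpa using this
    exact Subgroup.mul_mem_sup hk ⟨hn, h1⟩
  · exact sup_le (le_inf le_sup_left h) (le_inf (inf_le_left.trans le_sup_right) inf_le_right)

theorem crit [Finite G] (N A B : Subgroup G) [N.Normal] (hA : ¬ N ≤ A) (hB : ¬ N ≤ B)
    (h : A ⊓ B ⊓ N = ⊥) :
    Nat.card {K : Subgroup G // K ≤ A} + Nat.card {K : Subgroup G // K ≤ B} ≤
      Nat.card (Subgroup G) := by
  classical
  set SA : Set (Subgroup G) := {K | K ≤ A}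
  set SB : Set (Subgroup G) := {K | K ≤ B}
  have h1 : Nat.card {K : Subgroup G // K ≤ A} = SA.ncard := rfl
  have h2 : Nat.card {K : Subgroup G // K ≤ B} = SB.ncard := rfl
  have h3 : (SA ∩ SB).ncard ≤ (SA ∪ SB)ᶜ.ncard := by
    apply Set.ncard_le_ncard_of_injOn (fun K => K ⊔ N)
    · rintro K ⟨hKA, hKB⟩
      simp only [Set.mem_compl_iff, Set.mem_union, not_or]
      exact ⟨fun h' => hA (le_trans le_sup_right h'), fun h' => hB (le_trans le_sup_right h')⟩
    · rintro K ⟨hKA, hKB⟩ K' ⟨hKA', hKB'⟩ hKK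
      have h4 : ∀ K : Subgroup G, K ≤ A → K ≤ B → (K ⊔ N) ⊓ (A ⊓ B) = K := by
        intro K hKA hKB
        rw [dedekind N (le_inf hKA hKB), inf_comm N, h, sup_bot_eq]
      simp only at hKK
      rw [← h4 K hKA hKB, ← h4 K' hKA' hKB', hKK]
  have h4 := Set.ncard_union_add_ncard_inter SA SB
  have h5 := Set.ncard_add_ncard_compl (SA ∪ SB)
  rw [h1, h2]
  omega

/-- some meet-irreducible element lies above at most half of the elements -/
def Weak (L : Type*) [Lattice L] : Prop :=
  ∃ M : L, InfIrred M ∧ 2 * Nat.card {U : L // U ≤ M} ≤ Nat.card L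

theorem weak_of_pair [Finite G] (N A B : Subgroup G) [N.Normal] (hA : ¬ N ≤ A) (hB : ¬ N ≤ B)
    (hAi : InfIrred A) (hBi : InfIrred B) (h : A ⊓ B ⊓ N = ⊥) : Weak (Subgroup G) := by
  have := crit N A B hA hB h
  rcases le_total (Nat.card {K : Subgroup G // K ≤ A}) (Nat.card {K : Subgroup G // K ≤ B})
    with h1 | h1
  · exact ⟨A, hAi, by omega⟩
  · exact ⟨B, hBi, by omega⟩

theorem infIrred_of_maximal {N H : Subgroup G} (hN : ¬ N ≤ H)
    (hmax : ∀ K : Subgroup G, H < K → N ≤ K) : InfIrred H := by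
  refine ⟨?_, ?_⟩
  · intro h
    have : H = ⊤ := top_le_iff.1 (h le_top)
    exact hN (this ▸ le_top)
  · intro b c hbc
    by_contra hno
    push Not at hno
    apply hN
    have hb : H < b := lt_of_le_of_ne (hbc ▸ inf_le_left) (Ne.symm hno.1)
    have hc : H < c := lt_of_le_of_ne (hbc ▸ inf_le_right) (Ne.symm hno.2)
    rw [← hbc]
    exact le_inf (hmax _ hb) (hmax _ hc)

/-- a subgroup that does not contain `N` is contained in a maximal one -/
theorem exists_maximal [Finite G] {N H₀ : Subgroup G} (h : ¬ N ≤ H₀) :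
    ∃ H : Subgroup G, H₀ ≤ H ∧ ¬ N ≤ H ∧ ∀ K : Subgroup G, H < K → N ≤ K := by
  obtain ⟨H, hH, hmax⟩ := (Set.toFinite {H : Subgroup G | H₀ ≤ H ∧ ¬ N ≤ H}).exists_maximal
    ⟨H₀, le_rfl, h⟩
  refine ⟨H, hH.1, hH.2, fun K hK => ?_⟩
  by_contra hno
  exact hK.not_ge (hmax ⟨hH.1.trans hK.le, hno⟩ hK.le)

/-- the supplement criterion: `N` is a minimal normal subgroup, `H₀` a subgroup that does not
contain `N` and generates `G` together with the centralizer of `N`. -/
theorem exists_compl [Finite G] (N : Subgroup G) [N.Normal]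
    (hmin : ∀ K : Subgroup G, K.Normal → K ≤ N → K = ⊥ ∨ K = N)
    (H₀ : Subgroup G) (h0 : H₀ ⊔ Subgroup.centralizer (N : Set G) = ⊤) (hN : ¬ N ≤ H₀) :
    ∃ H : Subgroup G, ¬ N ≤ H ∧ InfIrred H ∧ H ⊓ N = ⊥ := by
  obtain ⟨H, h1, h2, h3⟩ := exists_maximal hN
  refine ⟨H, h2, infIrred_of_maximal h2 h3, ?_⟩
  have h4 : (H ⊓ N).Normal := by
    rw [← Subgroup.normalizer_eq_top_iff, eq_top_iff, ← h0, sup_le_iff]
    constructor
    · refine h1.trans ?_
      intro g hg
      rw [Subgroup.mem_normalizer_iff]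
      intro n
      constructor
      · rintro ⟨ha, hb⟩
        exact ⟨H.mul_mem (H.mul_mem hg ha) (H.inv_mem hg), Subgroup.Normal.conj_mem inferInstance _ hb g⟩
      · rintro ⟨ha, hb⟩
        refine ⟨?_, ?_⟩
        · have := H.mul_mem (H.mul_mem (H.inv_mem hg) ha) hg
          simpa [mul_assoc] using this
        · have := Subgroup.Normal.conj_mem (H := N) inferInstance _ hb g⁻¹
          simpa [mul_assoc] using this
    · intro g hg
      rw [Subgroup.mem_normalizer_iff]
      have hc : ∀ n ∈ N, g * n * g⁻¹ = n := by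
        intro n hn
        rw [Subgroup.mem_centralizer_iff] at hg
        rw [← hg n hn]
        group
      intro n
      constructor
      · rintro ⟨ha, hb⟩
        rw [hc n hb]
        exact ⟨ha, hb⟩
      · rintro ⟨ha, hb⟩
        have hb' : n ∈ N := by
          have := Subgroup.Normal.conj_mem (H := N) inferInstance _ hb g⁻¹
          simpa [mul_assoc] using this
        rw [hc n hb'] at ha
        exact ⟨ha, hb'⟩
  rcases hmin _ h4 inf_le_right with h5 | h5
  · exact h5
  · exact absurd (inf_eq_right.1 h5) h2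

end crit

end Pool.Agent.U133.FD
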