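import Pool.Agent.U133.FD.Strict

/-!
# Groups with a minimal normal subgroup of order `p ^ 2`; families of sets
-/

set_option autoImplicit false

namespace Pool.Agent.U133.FD

open OrderDual

universe u v w

section pair

variable {G : Type u} [Group G]

theorem infIrred_map {L K : Type*} [Lattice L] [Lattice K] (e : L ≃o K) {J : L}
    (h : InfIrred J) : InfIrred (e J) := by
  refine ⟨fun hmax => h.1 ?_, ?_⟩
  · intro b hb
    have := hmax (e.monotone hb)
    exact e.le_iff_le.1 this
  · intro b c hbc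
    have h1 : e.symm b ⊓ e.symm c = J := by
      rw [← e.symm.map_inf, hbc, e.symm_apply_apply]
    rcases h.2 h1 with h2 | h2
    · left; rw [← h2, e.apply_symm_apply]
    · right; rw [← h2, e.apply_symm_apply]

/-- a minimal normal subgroup of order `p ^ 2` -/
theorem weak_of_card_sq [Finite G] {p : ℕ} (hp : p.Prime) (N : Subgroup G) [N.Normal]
    (hmin : ∀ K : Subgroup G, K.Normal → K ≤ N → K = ⊥ ∨ K = N) (hN : Nat.card N = p ^ 2) :
    Weak (Subgroup G) := by
  have hNb : ¬ N ≤ ⊥ := by
    intro h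
    rw [le_bot_iff] at h
    rw [h, Subgroup.card_bot] at hN
    have := hp.one_lt
    nlinarith
  obtain ⟨A, -, hNA, hmax⟩ := exists_maximal hNb
  have hA := infIrred_of_maximal hNA hmax
  by_cases hW : A ⊓ N = ⊥
  · exact weak_of_pair N A A hNA hNA hA hA (by rw [inf_idem, hW])
  · -- the order of `A ⊓ N` is `p`
    have hWN : A ⊓ N ≠ N := fun h => hNA (inf_eq_right.1 h)
    have hWc : Nat.card (A ⊓ N : Subgroup G) = p := by
      have h1 : Nat.card (A ⊓ N : Subgroup G) ∣ p ^ 2 := by
        rw [← hN]; exact Subgroup.card_dvd_of_le inf_le_right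
      obtain ⟨k, hk, hk'⟩ := (Nat.dvd_prime_pow hp).1 h1
      interval_cases k
      · exact absurd (Subgroup.card_eq_one.1 (by simpa using hk')) hW
      · simpa using hk'
      · exfalso
        apply hWN
        exact Subgroup.eq_of_le_of_card_ge inf_le_right (by rw [hk', hN])
    -- some conjugate is different
    have hnn : ¬ (A ⊓ N).Normal := fun h => (hmin _ h inf_le_right).elim hW hWN
    obtain ⟨x, g, hx, hgx⟩ : ∃ x g, x ∈ A ⊓ N ∧ g * x * g⁻¹ ∉ A ⊓ N := by
      by_contra hno
      push Not at hno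
      exact hnn ⟨fun x hx g => hno x g hx⟩
    set e := (MulAut.conj g).mapSubgroup with he
    have heN : e N = N := by
      rw [he]
      change N.map (MulAut.conj g).toMonoidHom = N
      apply le_antisymm
      · rintro _ ⟨n, hn, rfl⟩
        exact Subgroup.Normal.conj_mem inferInstance n hn g
      · intro n hn
        refine ⟨g⁻¹ * n * g, ?_, ?_⟩
        · have := Subgroup.Normal.conj_mem (H := N) inferInstance n hn g⁻¹
          simpa using this
        · simp [mul_assoc]
    refine weak_of_pair N A (e A) hNA ?_ hA (infIrred_map e hA) ?_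
    · intro h
      apply hNA
      rw [← heN] at h
      exact e.le_iff_le.1 h
    · have h1 : A ⊓ e A ⊓ N = (A ⊓ N) ⊓ e (A ⊓ N) := by
        rw [e.map_inf, heN, inf_inf_inf_comm, inf_idem]
      have hec : Nat.card (e (A ⊓ N) : Subgroup G) = p := by
        rw [← hWc]
        exact (Nat.card_congr ((A ⊓ N).equivMapOfInjective _ (MulAut.conj g).injective).toEquiv).symm
      have h2 : Nat.card ((A ⊓ N) ⊓ e (A ⊓ N) : Subgroup G) ∣ p := by
        rw [← hWc]; exact Subgroup.card_dvd_of_le inf_le_left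
      rw [h1]
      rcases (Nat.dvd_prime hp).1 h2 with h3 | h3
      · exact Subgroup.card_eq_one.1 h3
      · exfalso
        have h4 : (A ⊓ N) ⊓ e (A ⊓ N) = A ⊓ N :=
          Subgroup.eq_of_le_of_card_ge inf_le_left (by rw [h3, hWc])
        have h5 : (A ⊓ N) ⊓ e (A ⊓ N) = e (A ⊓ N) :=
          Subgroup.eq_of_le_of_card_ge inf_le_right (by rw [h3, hec])
        apply hgx
        rw [← h4, h5]
        exact ⟨x, hx, rfl⟩

/-- the criterion with a supplement of the centralizer -/
theorem weak_of_supplement [Finite G] (N : Subgroup G) [N.Normal]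
    (hmin : ∀ K : Subgroup G, K.Normal → K ≤ N → K = ⊥ ∨ K = N)
    (H₀ : Subgroup G) (h0 : H₀ ⊔ Subgroup.centralizer (N : Set G) = ⊤) (hN : ¬ N ≤ H₀) :
    Weak (Subgroup G) := by
  obtain ⟨H, h1, h2, h3⟩ := exists_compl N hmin H₀ h0 hN
  exact weak_of_pair N H H h1 h1 h2 h2 (by rw [inf_idem, h3])

end pair

/-- from the lattice to the families of sets -/
theorem family_of_weak {α : Type w} [DecidableEq α] (A : Finset (Finset α))
    (hA : ∀ X ∈ A, ∀ Y ∈ A, X ∪ Y ∈ A) {L : Type u} [Lattice L] [OrderTop L] [Finite L]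
    (e : {X // X ∈ A} ≃o L) (h : Weak L) :
    ∃ i, A.card ≤ 2 * (A.filter fun X => i ∈ X).card := by
  obtain ⟨M, hM, hc⟩ := h
  have : Finite Lᵒᵈ := inferInstanceAs (Finite L)
  exact Pool.Agent.R636.FL.frankl_of_supIrred (L := Lᵒᵈ) A hA (e.trans (OrderIso.dualDual L))
    (J := toDual M) hM.dual hc

/-- a family with one member -/
theorem family_of_subsingleton {α : Type w} [DecidableEq α] (A : Finset (Finset α))
    (hne : A ≠ {∅}) {L : Type u} [Lattice L] [Nonempty L] [Subsingleton L]
    (e : {X // X ∈ A} ≃o L) :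
    ∃ i, A.card ≤ 2 * (A.filter fun X => i ∈ X).card := by
  have h1 : A.card = 1 := by
    have h2 : Nat.card {X // X ∈ A} = Nat.card L := Nat.card_congr e.toEquiv
    have h3 : Nat.card L = 1 := Nat.card_unique
    rw [h3] at h2
    simpa using h2
  obtain ⟨X, hX⟩ := Finset.card_eq_one.1 h1
  have h2 : X.Nonempty := by
    rw [Finset.nonempty_iff_ne_empty]
    rintro rfl
    exact hne hX
  obtain ⟨i, hi⟩ := h2
  refine ⟨i, ?_⟩
  rw [hX]
  simp [Finset.filter_singleton, hi]

end Pool.Agent.U133.FD
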