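import Pool.Agent.U133.FD.Basic

/-!
# The supplement of the centralizer of a minimal normal subgroup
-/

set_option autoImplicit false

namespace Pool.Agent.U133.FD

universe u

/-- minimal normal subgroups of finite solvable groups -/
theorem exists_minNormal (G : Type u) [Group G] [Finite G] (hs : Group.IsSolvable G)
    [Nontrivial G] :
    ∃ N : Subgroup G, N.Normal ∧ N ≠ ⊥ ∧
      (∀ K : Subgroup G, K.Normal → K ≤ N → K = ⊥ ∨ K = N) ∧
      (∀ a ∈ N, ∀ b ∈ N, a * b = b * a) ∧
      ∃ r : ℕ, r.Prime ∧ ∀ x ∈ N, x ^ r = 1 := by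
  classical
  let C : Set (Subgroup G) := {N | N.Normal ∧ N ≠ ⊥}
  have hC : C.Nonempty := ⟨⊤, inferInstance, top_ne_bot⟩
  obtain ⟨N, hNC, hN⟩ := (Set.toFinite C).exists_minimal hC
  obtain ⟨hNn, hNb⟩ := hNC
  have hmin : ∀ K : Subgroup G, K.Normal → K ≤ N → K = ⊥ ∨ K = N := by
    intro K hK hKN
    by_cases hKb : K = ⊥
    · exact Or.inl hKb
    · exact Or.inr (le_antisymm hKN (hN ⟨hK, hKb⟩ hKN))
  have hcomm : ∀ a ∈ N, ∀ b ∈ N, a * b = b * a := by
    have h1 : ⁅N, N⁆ < N := Group.IsSolvable.commutator_lt_of_ne_bot hNb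
    have h2 : ⁅N, N⁆ = ⊥ := by
      rcases hmin ⁅N, N⁆ inferInstance h1.le with h | h
      · exact h
      · exact absurd h h1.ne
    rw [Subgroup.commutator_eq_bot_iff_le_centralizer] at h2
    intro a ha b hb
    exact ((Subgroup.mem_centralizer_iff.mp (h2 hb)) a ha)
  refine ⟨N, hNn, hNb, hmin, hcomm, ?_⟩
  have hcard : Nat.card N ≠ 1 := fun h => hNb (Subgroup.card_eq_one.mp h)
  obtain ⟨r, hr, hrd⟩ := Nat.exists_prime_and_dvd hcard
  have : Fact r.Prime := ⟨hr⟩
  let K : Subgroup G :=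
    { carrier := {x | x ∈ N ∧ x ^ r = 1}
      one_mem' := ⟨N.one_mem, one_pow r⟩
      mul_mem' := by
        rintro a b ⟨ha, ha'⟩ ⟨hb, hb'⟩
        refine ⟨N.mul_mem ha hb, ?_⟩
        have h1 : Commute a b := hcomm a ha b hb
        rw [h1.mul_pow, ha', hb', one_mul]
      inv_mem' := by
        rintro a ⟨ha, ha'⟩
        refine ⟨N.inv_mem ha, ?_⟩
        rw [inv_pow, ha', inv_one] }
  have hKn : K.Normal := by
    constructor
    rintro a ⟨ha, ha'⟩ g
    refine ⟨hNn.conj_mem a ha g, ?_⟩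
    rw [conj_pow, ha', mul_one, mul_inv_cancel]
  have hKN : K ≤ N := fun x hx => hx.1
  have hKb : K ≠ ⊥ := by
    intro hK
    obtain ⟨x, hx⟩ := exists_prime_orderOf_dvd_card' (G := N) r hrd
    have h1 : (x : G) ∈ K := by
      refine ⟨x.2, ?_⟩
      have := pow_orderOf_eq_one x
      rw [hx] at this
      have h2 := congrArg Subtype.val this
      simpa using h2
    rw [hK, Subgroup.mem_bot] at h1
    have h2 : x = 1 := Subtype.ext h1
    rw [h2, orderOf_one] at hx
    exact hr.one_lt.ne hx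
  have hKN' : K = N := (hmin K hKn hKN).resolve_left hKb
  refine ⟨r, hr, fun x hx => ?_⟩
  rw [← hKN'] at hx
  exact hx.2

variable {G : Type u} [Group G]

/-- if the normal subgroup `F` is generated by `C` and `Q` -/
theorem inf_centralizer_eq [Finite G] {p : ℕ} [Fact p.Prime] (N F : Subgroup G) [N.Normal]
    [F.Normal] (hNp : ∀ x ∈ N, x ^ p = 1) (hNb : N ≠ ⊥)
    (hmin : ∀ K : Subgroup G, K.Normal → K ≤ N → K = ⊥ ∨ K = N)
    (Q : Subgroup G) (hQ : IsPGroup p Q) (hF : F = Subgroup.centralizer (N : Set G) ⊔ Q) :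
    F = Subgroup.centralizer (N : Set G) := by
  -- the fixed points of `Q` on `N`
  have hNP : IsPGroup p N := fun x => ⟨1, by
    apply Subtype.ext
    simpa using hNp x.1 x.2⟩
  let : MulAction Q N := MulAction.compHom N ((MulAut.conjNormal (H := N)).comp Q.subtype)
  have hdef : ∀ (g : Q) (n : N), ((g • n : N) : G) = (g : G) * n * (g : G)⁻¹ := by
    intro g n
    rfl
  have h1 : (1 : N) ∈ MulAction.fixedPoints Q N := by
    intro g
    apply Subtype.ext
    rw [hdef]
    simp
  have hnt : Nontrivial N := (Subgroup.nontrivial_iff_ne_bot N).2 hNb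
  have hdvd : p ∣ Nat.card N := by
    obtain ⟨n, hn⟩ := IsPGroup.iff_card.1 hNP
    have h2 : Nat.card N ≠ 1 := by
      intro h
      exact hNb (Subgroup.card_eq_one.mp h)
    rw [hn]
    rcases Nat.eq_zero_or_pos n with rfl | hpos
    · rw [hn] at h2; simp at h2
    · exact dvd_pow_self p hpos.ne'
  obtain ⟨b, hb, hb1⟩ := hQ.exists_fixed_point_of_prime_dvd_card_of_fixed_point N hdvd h1
  have hbF : (b : G) ∈ N ⊓ Subgroup.centralizer (F : Set G) := by
    refine Subgroup.mem_inf.2 ⟨b.2, ?_⟩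
    have h2 : F ≤ Subgroup.centralizer {(b : G)} := by
      rw [hF, sup_le_iff]
      constructor
      · exact Subgroup.centralizer_le (Set.singleton_subset_iff.2 b.2)
      · intro g hg
        rw [Subgroup.mem_centralizer_singleton_iff]
        have h3 := congrArg Subtype.val (hb ⟨g, hg⟩)
        rw [hdef] at h3
        simp only at h3
        rw [mul_inv_eq_iff_eq_mul] at h3
        exact h3
    rw [Subgroup.mem_centralizer_iff]
    intro f hf
    have h3 := h2 hf
    rw [Subgroup.mem_centralizer_singleton_iff] at h3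
    exact h3
  have hne : N ⊓ Subgroup.centralizer (F : Set G) ≠ ⊥ := by
    intro h
    rw [h, Subgroup.mem_bot] at hbF
    exact hb1 (Subtype.ext hbF.symm)
  have h4 := (hmin (N ⊓ Subgroup.centralizer (F : Set G)) inferInstance inf_le_left).resolve_left hne
  have h5 : N ≤ Subgroup.centralizer (F : Set G) := inf_eq_left.1 h4
  apply le_antisymm
  · rwa [Subgroup.le_centralizer_iff] at h5
  · rw [hF]; exact le_sup_left

/-- a normal subgroup `F` such that `F / C` is a `q`-group is generated by `C` and a Sylow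
`q`-subgroup of `F` -/
theorem sup_sylow_eq [Finite G] {q : ℕ} [Fact q.Prime] (C F : Subgroup G) [C.Normal] [F.Normal]
    (hCF : C ≤ F) (hq : ∀ x ∈ F, ∃ n : ℕ, x ^ q ^ n ∈ C) (Q : Sylow q F) :
    F = C ⊔ (Q : Subgroup F).map F.subtype := by
  have hD : (C.subgroupOf F).Normal := inferInstance
  set D := C.subgroupOf F with hDdef
  have h1 : IsPGroup q (F ⧸ D) := by
    intro x
    induction x using QuotientGroup.induction_on with
    | H z =>
      obtain ⟨n, hn⟩ := hq z.1 z.2
      refine ⟨n, ?_⟩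
      rw [← QuotientGroup.mk_pow, QuotientGroup.eq_one_iff, hDdef, Subgroup.mem_subgroupOf]
      simpa using hn
  obtain ⟨n, hn⟩ := IsPGroup.iff_card.1 h1
  have h2 : (D ⊔ (Q : Subgroup F)).index ∣ q ^ n := by
    rw [← hn, ← Subgroup.index_eq_card]
    exact Subgroup.index_dvd_of_le le_sup_left
  have h3 : (D ⊔ (Q : Subgroup F)).index ∣ (Q : Subgroup F).index :=
    Subgroup.index_dvd_of_le le_sup_right
  have h4 : Nat.Coprime (q ^ n) (Q : Subgroup F).index :=
    Nat.Coprime.pow_left n ((Nat.Prime.coprime_iff_not_dvd Fact.out).2 Q.not_dvd_index)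
  have h5 : (D ⊔ (Q : Subgroup F)).index = 1 := Nat.eq_one_of_dvd_coprimes h4 h2 h3
  rw [Subgroup.index_eq_one] at h5
  have h6 := congrArg (Subgroup.map F.subtype) h5
  rw [Subgroup.map_sup, hDdef, Subgroup.subgroupOf_map_subtype, ← MonoidHom.range_eq_map,
    Subgroup.range_subtype, inf_eq_left.2 hCF] at h6
  exact h6.symm

/-- the key step: if `N` is a minimal normal subgroup of exponent `p` and `G / C(N)` has a
nontrivial normal `q`-subgroup, then `C(N)` has a supplement that does not contain `N` -/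
theorem exists_supplement [Finite G] {p q : ℕ} [Fact p.Prime] [Fact q.Prime]
    (N F : Subgroup G) [N.Normal]
    [F.Normal] (hNp : ∀ x ∈ N, x ^ p = 1) (hNb : N ≠ ⊥)
    (hmin : ∀ K : Subgroup G, K.Normal → K ≤ N → K = ⊥ ∨ K = N)
    (hCF : Subgroup.centralizer (N : Set G) < F)
    (hq : ∀ x ∈ F, ∃ n : ℕ, x ^ q ^ n ∈ Subgroup.centralizer (N : Set G)) :
    ∃ H₀ : Subgroup G, H₀ ⊔ Subgroup.centralizer (N : Set G) = ⊤ ∧ ¬ N ≤ H₀ := by
  obtain ⟨Q⟩ : Nonempty (Sylow q F) := inferInstance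
  have h1 := sup_sylow_eq _ F hCF.le hq Q
  set Q' := (Q : Subgroup F).map F.subtype with hQ'
  have hQp : IsPGroup q Q' := Q.isPGroup'.map _
  have hpq : p ≠ q := by
    rintro rfl
    exact hCF.ne (inf_centralizer_eq N F hNp hNb hmin Q' hQp h1).symm
  refine ⟨Subgroup.normalizer (Q' : Set G), ?_, ?_⟩
  · have h2 := Sylow.normalizer_sup_eq_top Q
    rw [eq_top_iff, ← h2, sup_le_iff]
    refine ⟨le_sup_left, ?_⟩
    conv_lhs => rw [h1]
    exact sup_le le_sup_right (Subgroup.le_normalizer.trans le_sup_left)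
  · intro hN
    apply hCF.not_ge
    rw [h1]
    refine sup_le le_rfl ?_
    intro x hx
    rw [Subgroup.mem_centralizer_iff]
    intro n hn
    -- the commutator of `n` and `x` is in `Q'` and in `N`
    have h3 : n * x * n⁻¹ * x⁻¹ ∈ Q' := by
      refine Q'.mul_mem ?_ (Q'.inv_mem hx)
      exact (Subgroup.mem_normalizer_iff.1 (hN hn) x).1 hx
    have h4 : n * x * n⁻¹ * x⁻¹ ∈ N := by
      have h5 : x * n⁻¹ * x⁻¹ ∈ N := Subgroup.Normal.conj_mem inferInstance _ (N.inv_mem hn) x
      have := N.mul_mem hn h5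
      simpa [mul_assoc] using this
    have h5 : n * x * n⁻¹ * x⁻¹ = 1 := by
      obtain ⟨k, hk⟩ := hQp ⟨_, h3⟩
      have h6 : (n * x * n⁻¹ * x⁻¹) ^ q ^ k = 1 := by
        have := congrArg Subtype.val hk
        simpa using this
      have h7 := hNp _ h4
      have h8 : Nat.Coprime p (q ^ k) :=
        Nat.Coprime.pow_right k ((Nat.coprime_primes Fact.out Fact.out).2 hpq)
      have h9 : orderOf (n * x * n⁻¹ * x⁻¹) = 1 :=
        Nat.eq_one_of_dvd_coprimes h8 (orderOf_dvd_of_pow_eq_one h7) (orderOf_dvd_of_pow_eq_one h6)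
      exact orderOf_eq_one_iff.1 h9
    rw [mul_inv_eq_one, mul_inv_eq_iff_eq_mul] at h5
    exact h5

/-- the supplement in a solvable group -/
theorem exists_supplement_solvable [Finite G] (hs : Group.IsSolvable G) {p : ℕ} [Fact p.Prime]
    (N : Subgroup G) [N.Normal]
    (hNp : ∀ x ∈ N, x ^ p = 1) (hNb : N ≠ ⊥)
    (hmin : ∀ K : Subgroup G, K.Normal → K ≤ N → K = ⊥ ∨ K = N) :
    ∃ H₀ : Subgroup G, H₀ ⊔ Subgroup.centralizer (N : Set G) = ⊤ ∧ ¬ N ≤ H₀ := by
  set C := Subgroup.centralizer (N : Set G) with hC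
  by_cases hCt : C = ⊤
  · exact ⟨⊥, by rw [hCt]; simp, fun h => hNb (le_bot_iff.1 h)⟩
  · have hCn : C.Normal := inferInstance
    have hnt : Nontrivial (G ⧸ C) := by
      rw [QuotientGroup.nontrivial_iff]
      exact hCt
    obtain ⟨M, hMn, hMb, -, -, q, hq, hMq⟩ := exists_minNormal (G ⧸ C) inferInstance
    have : Fact q.Prime := ⟨hq⟩
    have hFn : (M.comap (QuotientGroup.mk' C)).Normal := inferInstance
    refine exists_supplement (q := q) N (M.comap (QuotientGroup.mk' C)) hNp hNb hmin ?_ ?_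
    · rw [← hC]
      have h1 : C = (⊥ : Subgroup (G ⧸ C)).comap (QuotientGroup.mk' C) := by
        rw [MonoidHom.comap_bot, QuotientGroup.ker_mk']
      conv_lhs => rw [h1]
      exact (Subgroup.comap_lt_comap_of_surjective (QuotientGroup.mk'_surjective C)).2
        (bot_lt_iff_ne_bot.2 hMb)
    · intro x hx
      refine ⟨1, ?_⟩
      rw [← hC]
      have h2 := hMq _ hx
      rw [← map_pow, QuotientGroup.mk'_apply, QuotientGroup.eq_one_iff] at h2
      simpa using h2

/-- finite solvable groups have a normal subgroup `N` and a meet-irreducible subgroup `H` with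
`N ≰ H` and `H ⊓ N = ⊥` -/
theorem exists_compl_solvable (G : Type u) [Group G] [Finite G] (hs : Group.IsSolvable G)
    [Nontrivial G] :
    ∃ N H : Subgroup G, N.Normal ∧ ¬ N ≤ H ∧ InfIrred H ∧ H ⊓ N = ⊥ := by
  obtain ⟨N, hNn, hNb, hmin, -, p, hp, hNp⟩ := exists_minNormal G hs
  have : Fact p.Prime := ⟨hp⟩
  obtain ⟨H₀, h1, h2⟩ := exists_supplement_solvable hs N hNp hNb hmin
  obtain ⟨H, h3, h4, h5⟩ := exists_compl N hmin H₀ h1 h2
  exact ⟨N, H, hNn, h3, h4, h5⟩

theorem weak_solvable (G : Type u) [Group G] [Finite G] (hs : Group.IsSolvable G)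
    [Nontrivial G] : Weak (Subgroup G) := by
  obtain ⟨N, H, h1, h2, h3, h4⟩ := exists_compl_solvable G hs
  exact weak_of_pair N H H h2 h2 h3 h3 (by rw [inf_idem, h4])

end Pool.Agent.U133.FD
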