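import Pool.Agent.U133.FD.Solv

/-!
# The strict form for the lattice of subgroups of a solvable group
-/

set_option autoImplicit false

namespace Pool.Agent.U133.FD

open Pool.Agent.R636.FL OrderDual

universe u v w

instance instFiniteSubgroupDual (G : Type u) [Group G] [Finite G] : Finite (Subgroup G)ᵒᵈ :=
  inferInstanceAs (Finite (Subgroup G))

/-- the subgroups that contain `N` -/
def iicIso {G : Type u} [Group G] (N : Subgroup G) [N.Normal] :
    (Subgroup (G ⧸ N))ᵒᵈ ≃o Set.Iic (toDual N) where
  toFun K := ⟨toDual (QuotientGroup.comapMk'OrderIso N (ofDual K)).1,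
    (QuotientGroup.comapMk'OrderIso N (ofDual K)).2⟩
  invFun K := toDual ((QuotientGroup.comapMk'OrderIso N).symm ⟨ofDual K.1, K.2⟩)
  left_inv K := by
    apply ofDual.injective
    change (QuotientGroup.comapMk'OrderIso N).symm _ = _
    exact (QuotientGroup.comapMk'OrderIso N).symm_apply_apply _
  right_inv K := by
    apply Subtype.ext
    change toDual ((QuotientGroup.comapMk'OrderIso N)
      ((QuotientGroup.comapMk'OrderIso N).symm ⟨ofDual K.1, K.2⟩)).1 = _
    rw [OrderIso.apply_symm_apply]
    rfl
  map_rel_iff' {K K'} := by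
    change (QuotientGroup.comapMk'OrderIso N (ofDual K')).1 ≤
      (QuotientGroup.comapMk'OrderIso N (ofDual K)).1 ↔ _
    rw [Subtype.coe_le_coe, OrderIso.le_iff_le]
    rfl

theorem good_solvable_aux (n : ℕ) : ∀ (G : Type u) [Group G] [Finite G], Group.IsSolvable G →
    Nat.card G ≤ n → Good (Subgroup G)ᵒᵈ := by
  induction n with
  | zero =>
    intro G _ _ _ h
    have : 0 < Nat.card G := Nat.card_pos
    omega
  | succ n ih =>
    intro G _ _ hs hn
    rcases subsingleton_or_nontrivial G with hG | hG
    · have : Subsingleton (Subgroup G)ᵒᵈ := inferInstanceAs (Subsingleton (Subgroup G))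
      exact good_of_subsingleton
    · obtain ⟨N, H, hNn, hNH, hH, hHN⟩ := exists_compl_solvable G hs
      have hJN : ¬ (toDual H : (Subgroup G)ᵒᵈ) ≤ toDual N := hNH
      have h : ∀ U : (Subgroup G)ᵒᵈ, toDual H ≤ U → toDual H ⊔ (U ⊓ toDual N) = U := by
        intro U hU
        apply ofDual.injective
        change H ⊓ (ofDual U ⊔ N) = ofDual U
        have hU' : ofDual U ≤ H := hU
        rw [inf_comm, dedekind N hU', inf_comm, hHN, sup_bot_eq]
      rcases one_crit hJN h with h' | h'
      · refine good_of_split hJN h h' ((ih (G ⧸ N) inferInstance ?_).congr (iicIso N))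
        have hNb : N ≠ ⊥ := by
          rintro rfl
          exact hNH bot_le
        have h1 := Subgroup.card_eq_card_quotient_mul_card_subgroup N
        have h2 : 1 < Nat.card N := by
          have h3 : Nat.card N ≠ 1 := fun h => hNb (Subgroup.card_eq_one.mp h)
          have h4 : 0 < Nat.card N := Nat.card_pos
          omega
        have h5 : 0 < Nat.card (G ⧸ N) := Nat.card_pos
        have h6 : Nat.card (G ⧸ N) * 2 ≤ Nat.card G := by
          rw [h1]
          exact Nat.mul_le_mul_left _ h2
        omega
      · left
        exact ⟨toDual H, hH.dual, h'⟩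

/-- the lattice dual to the lattice of subgroups of a finite solvable group is good -/
theorem good_solvable (G : Type u) [Group G] [Finite G] (hs : Group.IsSolvable G) :
    Good (Subgroup G)ᵒᵈ := good_solvable_aux _ G hs le_rfl

end Pool.Agent.U133.FD
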